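import Pool.Agent.R483.LT.Main

/-!
MP_40785c_co: every finite simple connected graph with at least two vertices satisfies
`tree(G) ≥ 2 rad(G) / δ(G)`.
-/

namespace Pool.Agent.Results.MP_40785c_co.InducedTree

open SimpleGraph Finset Pool.Agent.R483.LT

/-- `tree(G)`: the largest number of vertices of a set `S` such that `G[S]` is a tree. -/
noncomputable def treeNumber {V : Type*} (G : SimpleGraph V) : ℕ :=
  sSup {n | ∃ S : Finset V, (G.induce (S : Set V)).IsTree ∧ S.card = n}

theorem card_le_treeNumber {V : Type*} [Fintype V] {G : SimpleGraph V} {S : Finset V}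
    (hS : TS G S) : S.card ≤ treeNumber G := by
  apply le_csSup
  · refine ⟨Fintype.card V, ?_⟩
    rintro n ⟨S, _, rfl⟩
    exact Finset.card_le_univ S
  · exact ⟨S, hS.isTree, rfl⟩

theorem long_path {V : Type*} [Fintype V] {G : SimpleGraph V} (hG : G.Connected) {r : ℕ}
    {c t : V} (h : r ≤ G.dist c t) : r + 1 ≤ treeNumber G := by
  classical
  obtain ⟨g, _, _, hg⟩ := exists_geo hG c t
  have h1 := card_le_treeNumber (hg.ind.ts 0 (G.dist c t) (by omega) le_rfl)
  rw [hg.ind.card 0 _ le_rfl] at h1
  omega

theorem leaf_two {V : Type*} [Fintype V] {G : SimpleGraph V} (hG : G.Connected)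
    (hrad : ∀ c, ∃ t, 2 ≤ G.dist c t) {l p : V} (hl : ∀ w, G.Adj l w ↔ w = p) :
    4 ≤ treeNumber G := by
  classical
  obtain ⟨t, ht⟩ := hrad p
  obtain ⟨g, hg0, _, hg⟩ := exists_geo hG p t
  have hlp : G.Adj l p := (hl p).mpr rfl
  have hg2 : IndPath G g 2 := hg.ind.mono ht
  have ha : IndPath G (fun i => if i = 0 then p else l) 1 := by
    intro i j hij hj
    have hi : i = 0 := by omega
    have hj : j = 1 := by omega
    subst hi hj
    simp only [if_true, one_ne_zero, if_false]
    exact ⟨hlp.ne.symm, by simp [hlp.symm]⟩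
  have hind : IndPath G (two (fun i => if i = 0 then p else l) g 1) (1 + 2) := by
    apply two_ind ha hg2 (by simp [hg0])
    intro i j hi hi1 hj hj2
    have hi : i = 1 := by omega
    subst hi
    simp only [one_ne_zero, if_false]
    refine ⟨?_, ?_⟩
    · intro he
      rcases (show j = 1 ∨ j = 2 by omega) with rfl | rfl
      · have h1 : G.Adj (g 1) (g 2) := by rw [hg2.adj_iff (by omega) (by omega)]; omega
        rw [← he, hl, ← hg0] at h1
        have := hg2.inj (by omega) (by omega) h1
        omega
      · have h1 : G.Adj (g 2) (g 1) := by rw [hg2.adj_iff (by omega) (by omega)]; omega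
        rw [← he, hl, ← hg0] at h1
        have := hg2.inj (by omega) (by omega) h1
        omega
    · rw [hl, ← hg0]
      intro he
      have := hg2.inj (by omega) (by omega) he
      omega
  have h1 := card_le_treeNumber (hind.ts 0 (1+2) (by omega) le_rfl)
  rw [hind.card 0 _ le_rfl] at h1
  omega

/-- **Main theorem.** Every finite simple connected graph `G` with at least two vertices satisfies
`tree(G) ≥ 2 rad(G) / δ(G)`. -/
theorem result {V : Type*} [Fintype V] [Nontrivial V] (G : SimpleGraph V) [DecidableRel G.Adj]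
    (hG : G.Connected) :
    2 * (G.radius.toNat : ℝ) / (G.minDegree : ℝ) ≤ (treeNumber G : ℝ) := by
  have hne : Nonempty V := hG.nonempty
  have hradtop : G.radius ≠ ⊤ := SimpleGraph.radius_ne_top_iff.mpr hG
  set r := G.radius.toNat with hr
  have hrr : (r : ℕ∞) = G.radius := ENat.natCast_toNat hradtop
  have hrad : ∀ c, ∃ t, r ≤ G.dist c t := by
    intro c
    obtain ⟨t, ht⟩ := SimpleGraph.exists_edist_eq_eccent_of_finite (G := G) c
    refine ⟨t, ?_⟩
    have h1 : G.radius ≤ G.edist c t := by rw [ht]; exact SimpleGraph.radius_le_eccent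
    rw [← hrr, ← (hG.preconnected c t).coe_dist_eq_edist] at h1
    exact_mod_cast h1
  have hcen : ∃ c, ∀ t, G.dist c t ≤ r := by
    obtain ⟨c, hc⟩ := SimpleGraph.exists_eccent_eq_radius (G := G)
    refine ⟨c, fun t => ?_⟩
    have h1 : G.edist c t ≤ G.radius := by rw [← hc]; exact SimpleGraph.edist_le_eccent
    rw [← hrr, ← (hG.preconnected c t).coe_dist_eq_edist] at h1
    exact_mod_cast h1
  obtain ⟨c0⟩ := hne
  obtain ⟨t0, ht0⟩ := hrad c0
  have hlong : r + 1 ≤ treeNumber G := long_path hG ht0
  rcases Nat.lt_or_ge 1 G.minDegree with hδ | hδ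
  · -- minimum degree at least two
    have h2 : (2 : ℝ) ≤ (G.minDegree : ℝ) := by exact_mod_cast hδ
    rw [div_le_iff₀ (by linarith)]
    have h3 : (r : ℝ) ≤ (treeNumber G : ℝ) := by
      have : r ≤ treeNumber G := by omega
      exact_mod_cast this
    have h4 : (0 : ℝ) ≤ (treeNumber G : ℝ) := Nat.cast_nonneg _
    nlinarith
  · rcases (show G.minDegree = 0 ∨ G.minDegree = 1 by omega) with h0 | h1
    · rw [h0]; simp
    · rw [h1]
      obtain ⟨l, hl⟩ := G.exists_minimal_degree_vertex
      rw [h1] at hl
      obtain ⟨p, hlp, hpu⟩ := SimpleGraph.degree_eq_one_iff_existsUnique_adj.mp hl.symm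
      have hl' : ∀ w, G.Adj l w ↔ w = p := by
        intro w
        constructor
        · intro h; exact hpu w h
        · rintro rfl; exact hlp
      have key : 2 * r ≤ treeNumber G := by
        rcases (show r = 0 ∨ r = 1 ∨ r = 2 ∨ 3 ≤ r by omega) with h | h | h | h
        · omega
        · omega
        · have := leaf_two hG (by rw [← h]; exact hrad) hl'
          omega
        · obtain ⟨n, hn⟩ : ∃ n, r = n + 1 := ⟨r - 1, by omega⟩
          rw [hn] at hrad hcen
          obtain ⟨S, hS, hc⟩ := leaf_case hG (n := n) (by omega) hrad hcen hl'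
          have := card_le_treeNumber hS
          omega
      have key' : (2 : ℝ) * (r : ℝ) ≤ (treeNumber G : ℝ) := by exact_mod_cast key
      simpa using key'

end Pool.Agent.Results.MP_40785c_co.InducedTree
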